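import Pool.Agent.H31.SW.TargetsL

/-!
# (GL) the class of the amplitudes is closed under the operators `LL`
-/

set_option autoImplicit false

open MeasureTheory Set Filter Complex
open scoped Topology

namespace Pool.Agent.H95.SWL

open Pool.Agent.H31.SW
open Pool.Agent.H29.DW (dg Rl lf)

private theorem isOpen_O3 : IsOpen O3 :=
  Metric.isOpen_ball.prod (Metric.isOpen_ball.prod Metric.isOpen_ball)

private theorem ne_facts (hUD : W_UD) {q : ℂ × ℂ × ℂ} (hq : q ∈ O3) :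
    q.2.1 ≠ 0 ∧ q.2.2 + UU q.1 q.2.1 ≠ 0 := by
  obtain ⟨h1, h2, h3⟩ := hq
  simp only [Metric.mem_ball, dist_eq_norm, sub_zero] at h1 h2 h3
  constructor
  · intro h
    rw [h, zero_sub, norm_neg, norm_one] at h2
    norm_num at h2
  · intro h
    have h4 := (hUD.1 q.1 q.2.1 h1.le (by simpa [dist_eq_norm] using h2)).2
    have h5 : (2 : ℂ) = -((q.2.2 - 1) + (UU q.1 q.2.1 - 1)) := by
      linear_combination h
    have h6 : ‖(2 : ℂ)‖ ≤ ‖q.2.2 - 1‖ + ‖UU q.1 q.2.1 - 1‖ := by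
      rw [h5, norm_neg]
      exact norm_add_le _ _
    rw [Complex.norm_ofNat] at h6
    linarith

private theorem cd_fst (n : ℕ) : ContDiffOn ℝ n (fun q : ℂ × ℂ × ℂ => q.1) O3 :=
  contDiff_fst.contDiffOn

private theorem cd_eta (n : ℕ) : ContDiffOn ℝ n (fun q : ℂ × ℂ × ℂ => q.2.1) O3 :=
  (contDiff_fst.comp contDiff_snd).contDiffOn

private theorem cd_w (n : ℕ) : ContDiffOn ℝ n (fun q : ℂ × ℂ × ℂ => q.2.2) O3 :=
  (contDiff_snd.comp contDiff_snd).contDiffOn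

private theorem cd_UU (hUD : W_UD) (n : ℕ) :
    ContDiffOn ℝ n (fun q : ℂ × ℂ × ℂ => UU q.1 q.2.1) O3 := by
  have h1 := hUD.2.1 n
  have h2 : ContDiffOn ℝ n (fun q : ℂ × ℂ × ℂ => (q.1, q.2.1)) O3 :=
    (cd_fst n).prodMk (cd_eta n)
  have h3 : MapsTo (fun q : ℂ × ℂ × ℂ => (q.1, q.2.1)) O3
      (Metric.ball (0 : ℂ) (1 / 100) ×ˢ Metric.ball (1 : ℂ) (1 / 50)) := by
    intro q hq
    exact ⟨hq.1, hq.2.1⟩
  have h4 := h1.comp h2 h3
  exact h4

private theorem cd_kk (hUD : W_UD) (n : ℕ) :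
    ContDiffOn ℝ n (fun q : ℂ × ℂ × ℂ => kk q.1 q.2.1 q.2.2) O3 := by
  have h1 := ((cd_w n).pow 2).sub ((cd_fst n).pow 2)
  have h2 := (cd_eta n).mul ((cd_w n).add (cd_UU hUD n))
  have h3 := h2.inv fun q hq => mul_ne_zero (ne_facts hUD hq).1 (ne_facts hUD hq).2
  refine (h1.mul h3).congr fun q _ => ?_
  unfold kk
  exact div_eq_mul_inv _ _

private theorem cd_kk' (hUD : W_UD) (n : ℕ) :
    ContDiffOn ℝ n (fun q : ℂ × ℂ × ℂ => kk' q.1 q.2.1 q.2.2) O3 := by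
  have h0 : ContDiffOn ℝ n (fun _ : ℂ × ℂ × ℂ => (2 : ℂ)) O3 := contDiffOn_const
  have h1 := ((h0.mul (cd_w n)).mul
    ((cd_w n).add (cd_UU hUD n))).sub (((cd_w n).pow 2).sub ((cd_fst n).pow 2))
  have h2 := (cd_eta n).mul (((cd_w n).add (cd_UU hUD n)).pow 2)
  have h3 := h2.inv fun q hq =>
    mul_ne_zero (ne_facts hUD hq).1 (pow_ne_zero 2 (ne_facts hUD hq).2)
  refine (h1.mul h3).congr fun q _ => ?_
  unfold kk'
  exact div_eq_mul_inv _ _

/-- (GL) -/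
theorem pf_GL (hUD : W_UD) : W_GL := by
  intro g hg r d
  constructor
  · intro n
    unfold LL
    refine ContDiffOn.sub ?_ ?_
    · refine ContDiffOn.clm_apply ?_ ?_
      · exact (hg.1 (n + 1)).fderiv_of_isOpen isOpen_O3 (by push_cast; exact le_rfl)
      · refine contDiffOn_const.prodMk (contDiffOn_const.prodMk ?_)
        exact ((cd_kk hUD n).mul contDiffOn_const).neg
    · refine ContDiffOn.mul ?_ (hg.1 n)
      have h1 : ContDiffOn ℝ n (fun q : ℂ × ℂ × ℂ => (kk' q.1 q.2.1 q.2.2 * d).re) O3 :=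
        Complex.reCLM.contDiff.comp_contDiffOn ((cd_kk' hUD n).mul contDiffOn_const)
      exact Complex.ofRealCLM.contDiff.comp_contDiffOn (contDiffOn_const.mul h1)
  · intro a η w hw
    have h1 : g (a, η, w) = 0 := hg.2 a η w hw
    have h2 : g =ᶠ[𝓝 (a, η, w)] fun _ => 0 := by
      have h3 : IsOpen {q : ℂ × ℂ × ℂ | 1 / 10000 < ‖q.2.2 - 1‖} :=
        isOpen_lt continuous_const (by fun_prop)
      filter_upwards [h3.mem_nhds hw] with q hq
      exact hg.2 q.1 q.2.1 q.2.2 hq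
    have h4 : fderiv ℝ g (a, η, w) = 0 := by
      rw [h2.fderiv_eq]
      simp
    unfold LL
    rw [h4, h1]
    simp

end Pool.Agent.H95.SWL
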